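import Mathlib
import Pool.Agent.J4H86.BES.Two

/-!
Rogers's first question on Besicovitch sets (covering by strips of small total width): negative
answer, in a form in which the set has no superfluous points.

`Plane`, `IsBesicovitch`, `HasStripCover` are the notions of the file `RogersQ2`.
-/

set_option autoImplicit false

open MeasureTheory
open Pool.Agent.Results.MP_6b55e5_an.RogersQ2 (Plane IsBesicovitch HasStripCover)

namespace Pool.Agent.Results.MP_6b55e5_an.OneSegmentPerDirection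

theorem result :
    (∃ I : Plane → Set Plane,
      (∀ e : Plane, ‖e‖ = 1 → ∃ x : Plane, I e = segment ℝ x (x + e)) ∧
      (∀ e : Plane, ‖e‖ = 1 → I (-e) = I e) ∧
      IsBesicovitch (⋃ e ∈ {e : Plane | ‖e‖ = 1}, I e) ∧
      ∀ D : Set Plane, Cardinal.mk D < Cardinal.continuum →
        ¬ HasStripCover (⋃ e ∈ {e : Plane | ‖e‖ = 1} \ D, I e) (1 / 200)) ∧
    (∃ E : Set Plane, IsCompact E ∧ IsBesicovitch E ∧
      (∀ v ∈ E, ∃ x e : Plane, ‖e‖ = 1 ∧ v ∈ segment ℝ x (x + e) ∧ segment ℝ x (x + e) ⊆ E) ∧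
      ¬ HasStripCover E (1 / 200)) :=
  ⟨Pool.Agent.J4H86.BES.partA, Pool.Agent.J4H86.BES.partB⟩

end Pool.Agent.Results.MP_6b55e5_an.OneSegmentPerDirection
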